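import Pool.Agent.H15.TG.Targets

/-!
# Board `tga_modules`, row PRX: primes of `R[X]` which do not meet `R`
-/

set_option autoImplicit false

namespace Pool.Agent.H94.TG

open Polynomial Pool.Agent.H15.TG nonZeroDivisors

theorem pf_PRX : T_PRX := by
  intro R _ _ _ P hP h0
  classical
  by_cases hbot : P = ⊥
  · exact ⟨0, by rw [hbot]; simp⟩
  obtain ⟨q, hqP, hq⟩ := hP.exists_mem_prime_of_ne_bot hbot
  have hdeg : q.natDegree ≠ 0 := by
    intro h
    have h1 : q = C (q.coeff 0) := eq_C_of_natDegree_eq_zero h
    rw [h1] at hqP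
    have h2 := h0 _ hqP
    rw [h2, C_0] at h1
    exact hq.ne_zero h1
  have hprim : q.IsPrimitive := hq.irreducible.isPrimitive hdeg
  let K := FractionRing R
  have hirr : Irreducible (q.map (algebraMap R K)) :=
    (hprim.irreducible_iff_irreducible_map_fraction_map (K := K)).1 hq.irreducible
  refine ⟨q, le_antisymm ?_ ?_⟩
  · intro g hg
    rw [Ideal.mem_span_singleton]
    by_contra hnd
    have h3 : ¬ q.map (algebraMap R K) ∣ g.map (algebraMap R K) := fun h =>
      hnd (hprim.dvd_of_fraction_map_dvd_fraction_map h)
    obtain ⟨A, B, hAB⟩ := (hirr.coprime_iff_not_dvd).2 h3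
    obtain ⟨c, hc0, hc⟩ := IsLocalization.integerNormalization_spec R⁰ A
    obtain ⟨d, hd0, hd⟩ := IsLocalization.integerNormalization_spec R⁰ B
    set A' := IsLocalization.integerNormalization R⁰ A
    set B' := IsLocalization.integerNormalization R⁰ B
    have h4 : (C (c * d) : R[X]) = C d * A' * q + C c * B' * g := by
      apply map_injective (algebraMap R K) (IsFractionRing.injective _ _)
      rw [Algebra.smul_def, Polynomial.algebraMap_apply] at hc hd
      simp only [Polynomial.map_add, Polynomial.map_mul, map_C]
      have e1 : A'.map (algebraMap R K) = C (algebraMap R K c) * A := hc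
      have e2 : B'.map (algebraMap R K) = C (algebraMap R K d) * B := hd
      rw [e1, e2]
      calc C (algebraMap R K (c * d)) = C (algebraMap R K c) * C (algebraMap R K d) * 1 := by
            rw [map_mul, C_mul, mul_one]
        _ = C (algebraMap R K c) * C (algebraMap R K d) *
            (A * q.map (algebraMap R K) + B * g.map (algebraMap R K)) := by rw [hAB]
        _ = _ := by ring
    have h5 : (C (c * d) : R[X]) ∈ P := by
      rw [h4]
      exact P.add_mem (P.mul_mem_left _ hqP) (P.mul_mem_left _ hg)
    have h6 := h0 _ h5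
    exact (mul_ne_zero (nonZeroDivisors.ne_zero hc0) (nonZeroDivisors.ne_zero hd0)) h6
  · rw [Ideal.span_singleton_le_iff_mem]
    exact hqP

end Pool.Agent.H94.TG
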